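import Mathlib
import Pool.Agent.Lib_helper44.WaveletDef
import Pool.Agent.Lib_helper44.CritDef
import Pool.Agent.Lib_helper44.ExistFinal

/-!
# All pairs (dilation, lattice) with an orthonormal wavelet

For every `n ≥ 1`, every `A` in `GL_n(ℝ)` and every full rank lattice `Γ` in `ℝⁿ`: an orthonormal
wavelet associated with `(A, Γ)` exists if and only if `(A, Γ)` or `(A⁻¹, Γ)` satisfies `EndCond`.
-/

namespace Pool.Agent.Results.MP_d6ba1b_an.AllPairs

open Pool.Agent.Lib_helper44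

theorem result (n : ℕ) [NeZero n] (A : GL (Fin n) ℝ) (Γ : Lat n) [DiscreteTopology Γ]
    [IsZLattice ℝ Γ] : HasWavelet A Γ ↔ EndCond A Γ ∨ EndCond A⁻¹ Γ :=
  hasWavelet_iff_endCond A Γ

end Pool.Agent.Results.MP_d6ba1b_an.AllPairs
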