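import Mathlib
import Pool.Agent.Lib_helper44.WaveletDef
import Pool.Agent.Lib_helper44.N2Final

/-!
# Pairs with orthonormal wavelets, but without MSF wavelets

For every planar pair `(A, Γ)` without wavelet sets for which orthonormal wavelets exist, none of
them is an MSF wavelet, and none of them satisfies the Calderon formula.
-/

namespace Pool.Agent.Results.MP_d6ba1b_an.WaveletNoMSF

open Pool.Agent.Lib_helper44

theorem result (A : GL (Fin 2) ℝ) (Γ : Lat 2) [DiscreteTopology Γ] [IsZLattice ℝ Γ]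
    (hE : Exceptional A Γ) (hG : GoodEigen A Γ) :
    HasWavelet A Γ ∧ ∀ ψ : L2 2, IsOrthonormalWavelet A Γ ψ →
      ¬ IsMSF ψ ∧ ∀ c : ENNReal, c ≠ 0 → ¬ CalderonAtLeast A ψ c :=
  ⟨(planar A Γ hE).1.mpr hG, (planar A Γ hE).2⟩

end Pool.Agent.Results.MP_d6ba1b_an.WaveletNoMSF
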